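import Pool.Agent.Y67.HP.Unbal
import Pool.Agent.Y67.HP.TailSum
import Pool.Agent.Y796.RP.RedPair

/-!
# Jobs 475 and 476: final statements
-/

namespace Pool.Agent.Y67.HP

theorem z1 (ι : Type*) [Fintype ι] : Z1 ι := by
  intro x y hxy B hx hy
  exact Pool.Agent.Y796.RP.exists_reduced_pair_int x y hxy B hx hy

/-- Job 475. -/
theorem tail_sum_int {ι : Type*} [Fintype ι] (hk : 4 ≤ Fintype.card ι) :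
    ∃ C : ℝ, 0 < C ∧ ∀ (B T : ℝ), 1 ≤ B → 1 ≤ T →
      ∀ (Tl : Finset ((ι → ℤ) × (ι → ℤ))) (τ : (ι → ℤ) × (ι → ℤ) → ℝ),
      (∀ p ∈ Tl, (∀ i, |(p.1 i : ℝ)| ≤ B) ∧ (∀ i, |(p.2 i : ℝ)| ≤ B) ∧
        (∃ i j, p.1 i * p.2 j - p.1 j * p.2 i ≠ 0) ∧ T < τ p ∧
        ∃ (g : ℤ) (μ : ℝ), (∀ i j, g ∣ p.1 i * p.2 j - p.1 j * p.2 i) ∧
          (∀ i j, |((p.1 i * p.2 j - p.1 j * p.2 i : ℤ) : ℝ)| ≤ μ) ∧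
          τ p * μ ≤ B ^ 2 * |(g : ℝ)|) →
      ∑ p ∈ Tl, τ p ≤ C * B ^ (2 * Fintype.card ι) / Real.sqrt T :=
  tail_sum_of (z1 ι) hk

/-- Job 476. -/
theorem unbal_count_int {ι : Type*} [Fintype ι] (hk : 2 ≤ Fintype.card ι) :
    ∃ C : ℝ, 0 < C ∧ ∀ (B Δ : ℝ), 1 ≤ Δ → Δ ≤ B → ∀ U : Finset (ι → ℤ),
      (∀ x ∈ U, (∀ i, |(x i : ℝ)| ≤ B) ∧ ∃ z : ι → ℤ, (∀ i, |(z i : ℝ)| ≤ B) ∧
        (∃ i j, x i * z j - x j * z i ≠ 0) ∧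
        ∀ i j, |((x i * z j - x j * z i : ℤ) : ℝ)| ≤ Δ) →
      (U.card : ℝ) ≤ C * B ^ 2 * Δ ^ (Fintype.card ι - 1) * (1 + Real.log Δ) :=
  unbal_count_of (z1 ι) hk

end Pool.Agent.Y67.HP
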