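import Mathlib

/-!
# Counting residue classes where a form is divisible by a large modulus

Job 480 (poster helper716, problem MP_95ac01_nt).  The two general lemmas `taylor'` and
`eval_congr_dvd'` are copied from `Pool.Agent.Y716.FF.Hensel`.
-/

namespace Pool.Agent.Y67.HP

section taylor
variable {R : Type*} [CommRing R] {ι : Type*} [Fintype ι]

theorem taylor' (f : MvPolynomial ι R) (x z : ι → R) (m : R) :
    ∃ h : R, MvPolynomial.eval (fun i => x i + m * z i) f = MvPolynomial.eval x f +
      m * ∑ i, z i * MvPolynomial.eval x (MvPolynomial.pderiv i f) + m ^ 2 * h := by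
  classical
  induction f using MvPolynomial.induction_on with
  | C a => exact ⟨0, by simp⟩
  | add p q hp hq =>
    obtain ⟨h1, e1⟩ := hp
    obtain ⟨h2, e2⟩ := hq
    refine ⟨h1 + h2, ?_⟩
    rw [map_add, e1, e2]
    simp only [map_add, mul_add, Finset.sum_add_distrib]
    ring
  | mul_X p j hp =>
    obtain ⟨h1, e1⟩ := hp
    have hs : ∑ i, z i * MvPolynomial.eval x (MvPolynomial.pderiv i (p * MvPolynomial.X j)) =
        (∑ i, z i * MvPolynomial.eval x (MvPolynomial.pderiv i p)) * x j
          + z j * MvPolynomial.eval x p := by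
      have : ∀ i, z i * MvPolynomial.eval x (MvPolynomial.pderiv i (p * MvPolynomial.X j)) =
          (z i * MvPolynomial.eval x (MvPolynomial.pderiv i p)) * x j +
          (if i = j then z j * MvPolynomial.eval x p else 0) := by
        intro i
        rw [MvPolynomial.pderiv_mul, map_add, map_mul, map_mul, MvPolynomial.eval_X,
          MvPolynomial.pderiv_X, Pi.single_apply]
        by_cases hij : i = j
        · subst hij
          simp
          ring
        · have : ¬ j = i := fun h => hij h.symm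
          simp [hij, this]
          ring
      simp only [this, Finset.sum_add_distrib, ← Finset.sum_mul, Finset.sum_ite_eq',
        Finset.mem_univ, if_true]
    refine ⟨h1 * (x j + m * z j) +
      (∑ i, z i * MvPolynomial.eval x (MvPolynomial.pderiv i p)) * z j, ?_⟩
    rw [hs, map_mul, map_mul, e1, MvPolynomial.eval_X, MvPolynomial.eval_X]
    ring

omit [Fintype ι] in
theorem eval_congr_dvd' (f : MvPolynomial ι R) {x y : ι → R} {m : R}
    (h : ∀ i, m ∣ x i - y i) : m ∣ MvPolynomial.eval x f - MvPolynomial.eval y f := by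
  induction f using MvPolynomial.induction_on with
  | C a => simp
  | add p q hp hq =>
    have := dvd_add hp hq
    simp only [map_add]
    convert this using 1
    ring
  | mul_X p j hp =>
    rw [map_mul, map_mul, MvPolynomial.eval_X, MvPolynomial.eval_X]
    have h1 : MvPolynomial.eval x p * x j - MvPolynomial.eval y p * y j =
      (MvPolynomial.eval x p - MvPolynomial.eval y p) * x j +
      MvPolynomial.eval y p * (x j - y j) := by ring
    rw [h1]
    exact dvd_add (Dvd.dvd.mul_right hp _) (Dvd.dvd.mul_left (h j) _)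

end taylor

/-- The linear condition: `P` divides `∑ z i * v i`. -/
theorem lin_cond {ι : Type*} [Fintype ι] (f : MvPolynomial ι ℤ) {S J K P : ℤ} (hS : S ≠ 0)
    (hJ : J ≠ 0) (hK : K ≠ 0) (xc v : ι → ℤ)
    (hgrad : ∀ i, MvPolynomial.eval xc (MvPolynomial.pderiv i f) = J * v i)
    (hP : P * J ∣ S) {x x0 z : ι → ℤ} (hx0 : ∀ i, S ∣ x0 i - xc i)
    (hxz : ∀ i, x i - x0 i = S * K * z i)
    (h0 : S * J * (P * K) ∣ MvPolynomial.eval x0 f) (h1 : S * J * (P * K) ∣ MvPolynomial.eval x f) :
    P ∣ ∑ i, z i * v i := by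
  obtain ⟨h, hh⟩ := taylor' f x0 z (S * K)
  have hx : (fun i => x0 i + S * K * z i) = x := by
    funext i
    have := hxz i
    linarith
  rw [hx] at hh
  -- modulus divides (S K)^2
  obtain ⟨m, hm⟩ := hP
  have h2 : S * J * (P * K) ∣ (S * K) ^ 2 * h := by
    refine Dvd.dvd.mul_right ⟨m * K, ?_⟩ _
    have : (S * K) ^ 2 = S * K * (S * K) := by ring
    rw [this]
    nth_rewrite 2 [hm]
    ring
  have h3 : S * J * (P * K) ∣ S * K * ∑ i, z i * MvPolynomial.eval x0 (MvPolynomial.pderiv i f) := by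
    have : S * K * ∑ i, z i * MvPolynomial.eval x0 (MvPolynomial.pderiv i f) =
        MvPolynomial.eval x f - MvPolynomial.eval x0 f - (S * K) ^ 2 * h := by
      rw [hh]; ring
    rw [this]
    exact dvd_sub (dvd_sub h1 h0) h2
  have h4 : J * P ∣ ∑ i, z i * MvPolynomial.eval x0 (MvPolynomial.pderiv i f) := by
    have h5 : S * K * (J * P) ∣ S * K * ∑ i, z i * MvPolynomial.eval x0 (MvPolynomial.pderiv i f) := by
      have : S * K * (J * P) = S * J * (P * K) := by ring
      rw [this]; exact h3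
    exact (mul_dvd_mul_iff_left (mul_ne_zero hS hK)).1 h5
  have h6 : J * P ∣ ∑ i, z i * MvPolynomial.eval x0 (MvPolynomial.pderiv i f) -
      ∑ i, z i * (J * v i) := by
    rw [← Finset.sum_sub_distrib]
    refine Finset.dvd_sum fun i _ => ?_
    rw [← mul_sub, ← hgrad i]
    refine Dvd.dvd.mul_left ?_ _
    have h7 := eval_congr_dvd' (MvPolynomial.pderiv i f) hx0
    refine dvd_trans ⟨m, ?_⟩ h7
    rw [hm]; ring
  have h8 : J * P ∣ J * ∑ i, z i * v i := by
    have h9 := dvd_sub h4 h6
    have : ∑ i, z i * MvPolynomial.eval x0 (MvPolynomial.pderiv i f) -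
      (∑ i, z i * MvPolynomial.eval x0 (MvPolynomial.pderiv i f) -
      ∑ i, z i * (J * v i)) = J * ∑ i, z i * v i := by
      rw [sub_sub_cancel, Finset.mul_sum]
      exact Finset.sum_congr rfl fun i _ => by ring
    rwa [this] at h9
  exact (mul_dvd_mul_iff_left hJ).1 h8

/-- Each class has at most `P ^ (k - 1)` elements. -/
theorem class_card {ι : Type*} [Fintype ι] (f : MvPolynomial ι ℤ) {S J K : ℤ} {P : ℕ}
    (hPp : P.Prime) (hS : S ≠ 0) (hJ : J ≠ 0) (hK : K ≠ 0) (xc v : ι → ℤ)
    (hgrad : ∀ i, MvPolynomial.eval xc (MvPolynomial.pderiv i f) = J * v i)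
    (hP : (P : ℤ) * J ∣ S) (hv : ∃ i, ¬ (P : ℤ) ∣ v i) {x0 : ι → ℤ}
    (hx0 : ∀ i, S ∣ x0 i - xc i) (h0 : S * J * (P * K) ∣ MvPolynomial.eval x0 f)
    (C : Finset (ι → ℤ))
    (hC : ∀ x ∈ C, (∀ i, S * K ∣ x i - x0 i) ∧ S * J * (P * K) ∣ MvPolynomial.eval x f)
    (hinj : ∀ x ∈ C, ∀ y ∈ C, (∀ i, S * (P * K) ∣ x i - y i) → x = y) :
    C.card ≤ P ^ (Fintype.card ι - 1) := by
  classical
  haveI : NeZero P := ⟨hPp.ne_zero⟩
  obtain ⟨i₀, hi₀⟩ := hv
  -- quotient vector
  let z : (ι → ℤ) → ι → ℤ := fun x i => (x i - x0 i) / (S * K)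
  have hz : ∀ x ∈ C, ∀ i, x i - x0 i = S * K * z x i := by
    intro x hx i
    exact (Int.mul_ediv_cancel' ((hC x hx).1 i)).symm
  let g : (ι → ℤ) → ({i : ι // i ≠ i₀} → ZMod P) := fun x i => (z x i : ZMod P)
  have hginj : Set.InjOn g C := by
    intro x hx y hy hxy
    have hx' := Finset.mem_coe.1 hx
    have hy' := Finset.mem_coe.1 hy
    refine hinj x hx' y hy' ?_
    have hlx : (P : ℤ) ∣ ∑ i, z x i * v i :=
      lin_cond f hS hJ hK xc v hgrad hP hx0 (hz x hx') h0 (hC x hx').2
    have hly : (P : ℤ) ∣ ∑ i, z y i * v i :=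
      lin_cond f hS hJ hK xc v hgrad hP hx0 (hz y hy') h0 (hC y hy').2
    have hne : ∀ i, i ≠ i₀ → (P : ℤ) ∣ z x i - z y i := by
      intro i hi
      have := congrFun hxy ⟨i, hi⟩
      have h2 : ((z x i : ℤ) : ZMod P) = ((z y i : ℤ) : ZMod P) := this
      exact (ZMod.intCast_eq_intCast_iff_dvd_sub _ _ _).1 h2.symm
    have hsub : (P : ℤ) ∣ ∑ i, (z x i - z y i) * v i := by
      have := dvd_sub hlx hly
      rw [← Finset.sum_sub_distrib] at this
      simpa only [sub_mul] using this
    have hi0 : (P : ℤ) ∣ (z x i₀ - z y i₀) * v i₀ := by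
      rw [← Finset.add_sum_erase _ _ (Finset.mem_univ i₀)] at hsub
      refine (dvd_add_left (Finset.dvd_sum fun i hi => ?_)).1 hsub
      exact Dvd.dvd.mul_right (hne i (Finset.ne_of_mem_erase hi)) _
    have hpz : Prime (P : ℤ) := Nat.prime_iff_prime_int.1 hPp
    have hall : ∀ i, (P : ℤ) ∣ z x i - z y i := by
      intro i
      by_cases hi : i = i₀
      · subst hi
        exact (hpz.dvd_or_dvd hi0).resolve_right hi₀
      · exact hne i hi
    intro i
    have e : x i - y i = S * K * (z x i - z y i) := by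
      have h1 := hz x hx' i
      have h2 := hz y hy' i
      linear_combination h1 - h2
    rw [e]
    have e2 : S * (P * K) = S * K * P := by ring
    rw [e2]
    exact mul_dvd_mul_left _ (hall i)
  have hle := Finset.card_le_card_of_injOn g (t := Finset.univ) (by intro x _; simp) hginj
  refine hle.trans (le_of_eq ?_)
  rw [Finset.card_univ, Fintype.card_fun, ZMod.card]
  congr 1
  rw [Fintype.card_subtype_compl]
  simp

/-- Job 480. -/
theorem residue_count {ι : Type*} [Fintype ι] (f : MvPolynomial ι ℤ) (S J : ℤ) (hS : S ≠ 0) (hJ : J ≠ 0)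
    (xc v : ι → ℤ) (hJS : J ∣ S) (hval : S * J ∣ MvPolynomial.eval xc f)
    (hgrad : ∀ i, MvPolynomial.eval xc (MvPolynomial.pderiv i f) = J * v i) (L : List ℕ)
    (hL : ∀ P ∈ L, P.Prime ∧ (P : ℤ) * J ∣ S ∧ ∃ i, ¬ (P : ℤ) ∣ v i) (T : Finset (ι → ℤ))
    (hT : ∀ x ∈ T, (∀ i, S ∣ x i - xc i) ∧ S * J * (L.prod : ℤ) ∣ MvPolynomial.eval x f)
    (hinj : ∀ x ∈ T, ∀ y ∈ T, (∀ i, S * (L.prod : ℤ) ∣ x i - y i) → x = y) :
    T.card ≤ L.prod ^ (Fintype.card ι - 1) := by
  classical
  induction L generalizing T with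
  | nil =>
    simp only [List.prod_nil, Nat.cast_one, mul_one, one_pow] at hT hinj ⊢
    refine Finset.card_le_one.2 fun x hx y hy => hinj x hx y hy fun i => ?_
    have h1 := (hT x hx).1 i
    have h2 := (hT y hy).1 i
    have := dvd_sub h1 h2
    simpa using this
  | cons P L ih =>
    have hLP := hL P (List.mem_cons_self)
    have hL' : ∀ P ∈ L, P.Prime ∧ (P : ℤ) * J ∣ S ∧ ∃ i, ¬ (P : ℤ) ∣ v i :=
      fun Q hQ => hL Q (List.mem_cons_of_mem _ hQ)
    set K : ℕ := L.prod with hKdef
    have hK0 : (K : ℤ) ≠ 0 := by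
      rw [Nat.cast_ne_zero, hKdef]
      exact List.prod_ne_zero fun h => (hL' 0 h).1.ne_zero rfl
    have hcast : (((P :: L).prod : ℕ) : ℤ) = (P : ℤ) * (K : ℤ) := by
      rw [List.prod_cons, Nat.cast_mul]
    rw [hcast] at hT hinj
    -- representatives
    let r : (ι → ℤ) → (ι → ℤ) → Prop := fun x y => ∀ i, S * (K : ℤ) ∣ x i - y i
    let st : Setoid (ι → ℤ) := ⟨r, fun x i => by simp, fun h i => by
        have := (dvd_neg.2 (h i)); simpa using this, fun h1 h2 i => by
        have := dvd_add (h1 i) (h2 i); simpa using this⟩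
    let rep : (ι → ℤ) → (ι → ℤ) := fun x =>
      if h : ∃ y ∈ T, Quotient.mk st y = Quotient.mk st x then h.choose else x
    have hrep : ∀ x ∈ T, rep x ∈ T ∧ Quotient.mk st (rep x) = Quotient.mk st x := by
      intro x hx
      have h : ∃ y ∈ T, Quotient.mk st y = Quotient.mk st x := ⟨x, hx, rfl⟩
      have e : rep x = h.choose := dif_pos h
      rw [e]
      exact h.choose_spec
    have hrepeq : ∀ x y, Quotient.mk st x = Quotient.mk st y → x ∈ T → y ∈ T → rep x = rep y := by
      intro x y hxy hx hy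
      have e : ∀ w, rep w = (fun q : Quotient st =>
          if h : ∃ y ∈ T, Quotient.mk st y = q then h.choose else 0) (Quotient.mk st w) ∨ w ∉ T := by
        intro w
        by_cases hw : w ∈ T
        · left
          have h : ∃ y ∈ T, Quotient.mk st y = Quotient.mk st w := ⟨w, hw, rfl⟩
          show (if h : ∃ y ∈ T, Quotient.mk st y = Quotient.mk st w then h.choose else w) =
            (if h : ∃ y ∈ T, Quotient.mk st y = Quotient.mk st w then h.choose else 0)
          rw [dif_pos h, dif_pos h]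
        · right; exact hw
      rcases e x with ex | ex
      · rcases e y with ey | ey
        · rw [ex, ey, hxy]
        · exact absurd hy ey
      · exact absurd hx ex
    have hmain : T.card ≤ (T.image rep).card * P ^ (Fintype.card ι - 1) := by
      refine Finset.card_le_mul_card_image (f := rep) T _ ?_ |>.trans (le_of_eq (mul_comm _ _))
      intro x0 hx0
      obtain ⟨w, hw, hw2⟩ := Finset.mem_image.1 hx0
      have hx0T : x0 ∈ T := hw2 ▸ (hrep w hw).1
      refine class_card f hLP.1 hS hJ hK0 xc v hgrad hLP.2.1 hLP.2.2 (hT x0 hx0T).1 (hT x0 hx0T).2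
        _ ?_ ?_
      · intro x hx
        rw [Finset.mem_filter] at hx
        refine ⟨?_, (hT x hx.1).2⟩
        have h3 := (hrep x hx.1).2
        rw [hx.2] at h3
        have h4 := Quotient.exact h3
        intro i
        have := h4 i
        have := dvd_neg.2 this
        simpa using this
      · intro x hx y hy
        rw [Finset.mem_filter] at hx hy
        exact hinj x hx.1 y hy.1
    refine hmain.trans ?_
    rw [List.prod_cons, mul_pow, mul_comm]
    refine Nat.mul_le_mul_left _ ?_
    refine ih hL' _ ?_ ?_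
    · intro x hx
      obtain ⟨w, hw, hw2⟩ := Finset.mem_image.1 hx
      have hxT : x ∈ T := hw2 ▸ (hrep w hw).1
      refine ⟨(hT x hxT).1, dvd_trans ⟨(P : ℤ), ?_⟩ (hT x hxT).2⟩
      ring
    · intro x hx y hy hxy
      obtain ⟨w, hw, hw2⟩ := Finset.mem_image.1 hx
      obtain ⟨w', hw', hw2'⟩ := Finset.mem_image.1 hy
      have hxT : x ∈ T := hw2 ▸ (hrep w hw).1
      have hyT : y ∈ T := hw2' ▸ (hrep w' hw').1
      have h1 : Quotient.mk st x = Quotient.mk st y := Quotient.sound hxy
      have h2 := hrepeq x y h1 hxT hyT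
      have hwx : Quotient.mk st x = Quotient.mk st w := by rw [← hw2]; exact (hrep w hw).2
      have hwy : Quotient.mk st y = Quotient.mk st w' := by rw [← hw2']; exact (hrep w' hw').2
      have h3 := hrepeq x w hwx hxT hw
      have h4 := hrepeq y w' hwy hyT hw'
      rw [← hw2, ← hw2', ← h3, ← h4, h2]

end Pool.Agent.Y67.HP
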