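import Mathlib

/-!
# Counting integer vectors through reduced bases

Common part of jobs 475 and 476 (poster helper716, problem MP_95ac01_nt).
-/

namespace Pool.Agent.Y67.HP

open Finset

/-- The statement of job 473 (Z1). -/
def Z1 (ι : Type*) [Fintype ι] : Prop :=
  ∀ (x y : ι → ℤ) (_ : ∃ i j, x i * y j - x j * y i ≠ 0) (B : ℝ)
    (_ : ∀ i, |(x i : ℝ)| ≤ B) (_ : ∀ i, |(y i : ℝ)| ≤ B),
    ∃ (V W : ℕ) (v w : ι → ℤ) (c₁ c₂ c₃ c₄ : ℤ), 1 ≤ V ∧ 1 ≤ W ∧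
      (∀ i, |v i| ≤ V) ∧ (∃ i, |v i| = V) ∧ (∀ i, |w i| ≤ W) ∧ (∃ i, |w i| = W) ∧
      (∀ i, x i = c₁ * v i + c₂ * w i) ∧ (∀ i, y i = c₃ * v i + c₄ * w i) ∧
      |(c₁ : ℝ)| * V ≤ 2 * Fintype.card ι * B ∧ |(c₃ : ℝ)| * V ≤ 2 * Fintype.card ι * B ∧
      |(c₂ : ℝ)| * W ≤ 2 * Fintype.card ι * B ∧ |(c₄ : ℝ)| * W ≤ 2 * Fintype.card ι * B ∧
      (V : ℝ) ≤ 2 * Fintype.card ι * B ∧ (W : ℝ) ≤ 2 * Fintype.card ι * B ∧
      (∀ g : ℤ, (∀ i j, g ∣ x i * y j - x j * y i) →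
        ∃ i j, |(g : ℝ)| * V * W ≤ 2 * Fintype.card ι * |((x i * y j - x j * y i : ℤ) : ℝ)|)

section shell
variable {ι : Type*} [Fintype ι]

open scoped Classical in
/-- integer vectors of sup norm exactly `m` -/
noncomputable def shell (ι : Type*) [Fintype ι] (m : ℕ) : Finset (ι → ℤ) :=
  (Fintype.piFinset (fun _ : ι => Finset.Icc (-(m : ℤ)) m)).filter (fun v => ∃ i, |v i| = m)

theorem mem_shell {m : ℕ} {v : ι → ℤ} :
    v ∈ shell ι m ↔ (∀ i, |v i| ≤ m) ∧ ∃ i, |v i| = m := by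
  classical
  unfold shell
  rw [Finset.mem_filter, Fintype.mem_piFinset]
  simp only [Finset.mem_Icc, abs_le]

/-- the constant in the count of `shell` -/
noncomputable def C0 (ι : Type*) [Fintype ι] : ℝ :=
  2 * Fintype.card ι * 3 ^ (Fintype.card ι - 1)

theorem C0_nonneg : 0 ≤ C0 ι := by unfold C0; positivity

theorem card_shell_le (m : ℕ) (hm : 1 ≤ m) :
    ((shell ι m).card : ℝ) ≤ C0 ι * (m : ℝ) ^ (Fintype.card ι - 1) := by
  classical
  have hsub : shell ι m ⊆ Finset.univ.biUnion (fun i : ι => Fintype.piFinset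
      (fun j => if j = i then ({(m : ℤ), -(m : ℤ)} : Finset ℤ) else Finset.Icc (-(m : ℤ)) m)) := by
    intro v hv
    rw [mem_shell] at hv
    obtain ⟨h1, i, hi⟩ := hv
    rw [Finset.mem_biUnion]
    refine ⟨i, Finset.mem_univ _, ?_⟩
    rw [Fintype.mem_piFinset]
    intro j
    by_cases hj : j = i
    · subst hj
      rw [if_pos rfl]
      simp only [Finset.mem_insert, Finset.mem_singleton]
      exact (abs_eq (by positivity)).1 hi
    · rw [if_neg hj, Finset.mem_Icc]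
      exact abs_le.1 (h1 j)
  have hcard : ∀ i : ι, (Fintype.piFinset
      (fun j => if j = i then ({(m : ℤ), -(m : ℤ)} : Finset ℤ) else
        Finset.Icc (-(m : ℤ)) m)).card ≤ 2 * (2 * m + 1) ^ (Fintype.card ι - 1) := by
    intro i
    rw [Fintype.card_piFinset, ← Finset.mul_prod_erase _ _ (Finset.mem_univ i), if_pos rfl]
    refine Nat.mul_le_mul (Finset.card_le_two) ?_
    rw [Finset.prod_congr rfl (g := fun _ => 2 * m + 1)]
    · rw [Finset.prod_const, Finset.card_erase_of_mem (Finset.mem_univ i), Finset.card_univ]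
    · intro j hj
      rw [if_neg (Finset.ne_of_mem_erase hj), Int.card_Icc]
      omega
  have h1 : (shell ι m).card ≤ Fintype.card ι * (2 * (2 * m + 1) ^ (Fintype.card ι - 1)) := by
    refine (Finset.card_le_card hsub).trans (Finset.card_biUnion_le.trans ?_)
    refine (Finset.sum_le_sum fun i _ => hcard i).trans ?_
    rw [Finset.sum_const, Finset.card_univ, smul_eq_mul]
  have h2 : ((shell ι m).card : ℝ) ≤
      Fintype.card ι * (2 * (2 * (m : ℝ) + 1) ^ (Fintype.card ι - 1)) := by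
    exact_mod_cast h1
  refine h2.trans ?_
  have hm1 : (1 : ℝ) ≤ m := by exact_mod_cast hm
  have h3 : (2 * (m : ℝ) + 1) ^ (Fintype.card ι - 1) ≤ (3 * (m : ℝ)) ^ (Fintype.card ι - 1) :=
    pow_le_pow_left₀ (by positivity) (by linarith) _
  unfold C0
  rw [mul_pow] at h3
  have hk : (0 : ℝ) ≤ Fintype.card ι := by positivity
  nlinarith [mul_le_mul_of_nonneg_left h3 hk]

end shell

/-- integers `c` with `|c| V ≤ X` -/
noncomputable def cr (X : ℝ) (V : ℕ) : Finset ℤ := Finset.Icc (-⌊X / V⌋) ⌊X / V⌋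

theorem mem_cr {X : ℝ} {V : ℕ} (hV : 1 ≤ V) {c : ℤ} (h : |(c : ℝ)| * V ≤ X) : c ∈ cr X V := by
  have hV0 : (0 : ℝ) < V := by exact_mod_cast hV
  have h1 : |(c : ℝ)| ≤ X / V := by rwa [le_div_iff₀ hV0]
  have h2 : |c| ≤ ⌊X / V⌋ := by
    rw [Int.le_floor]
    push_cast
    exact h1
  unfold cr
  rw [Finset.mem_Icc]
  exact abs_le.1 h2

theorem card_cr {X : ℝ} {V : ℕ} (hV : 1 ≤ V) (hVX : (V : ℝ) ≤ X) :
    ((cr X V).card : ℝ) ≤ 3 * X / V := by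
  have hV0 : (0 : ℝ) < V := by exact_mod_cast hV
  have h1 : 1 ≤ X / V := by rwa [le_div_iff₀ hV0, one_mul]
  unfold cr
  rw [Int.card_Icc]
  have hfl : (0 : ℤ) ≤ ⌊X / V⌋ := Int.floor_nonneg.2 (by linarith)
  have h2 : (((⌊X / V⌋ + 1 - -⌊X / V⌋).toNat : ℕ) : ℝ) = 2 * (⌊X / V⌋ : ℝ) + 1 := by
    have h3 : (((⌊X / V⌋ + 1 - -⌊X / V⌋).toNat : ℕ) : ℤ) = ⌊X / V⌋ + 1 - -⌊X / V⌋ :=
      Int.toNat_of_nonneg (by omega)
    have h4 : (((⌊X / V⌋ + 1 - -⌊X / V⌋).toNat : ℕ) : ℝ) =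
      (((⌊X / V⌋ + 1 - -⌊X / V⌋ : ℤ)) : ℝ) := by exact_mod_cast h3
    rw [h4]; push_cast; ring
  rw [h2]
  have h5 : (⌊X / V⌋ : ℝ) ≤ X / V := Int.floor_le _
  have h6 : 3 * X / V = 3 * (X / V) := by ring
  rw [h6]
  linarith

/-- Covering lemma. -/
theorem sum_le_of_cover {α β : Type*} (T : Finset α) (S : Finset β) (ψ : β → α) (τ : α → ℝ)
    (g : β → ℝ) (hg : ∀ s ∈ S, 0 ≤ g s) (h : ∀ p ∈ T, ∃ s ∈ S, ψ s = p ∧ τ p ≤ g s) :
    ∑ p ∈ T, τ p ≤ ∑ s ∈ S, g s := by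
  classical
  by_cases hT : T.Nonempty
  · obtain ⟨p0, hp0⟩ := hT
    obtain ⟨s0, hs0, -⟩ := h p0 hp0
    have h' : ∀ p, ∃ s, p ∈ T → s ∈ S ∧ ψ s = p ∧ τ p ≤ g s := by
      intro p
      by_cases hp : p ∈ T
      · obtain ⟨s, hs⟩ := h p hp
        exact ⟨s, fun _ => hs⟩
      · exact ⟨s0, fun h => absurd h hp⟩
    choose f hf using h'
    calc ∑ p ∈ T, τ p ≤ ∑ p ∈ T, g (f p) := Finset.sum_le_sum fun p hp => (hf p hp).2.2
      _ = ∑ s ∈ T.image f, g s := by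
          rw [Finset.sum_image]
          intro p hp q hq hpq
          rw [← (hf p hp).2.1, ← (hf q hq).2.1, hpq]
      _ ≤ ∑ s ∈ S, g s := by
          refine Finset.sum_le_sum_of_subset_of_nonneg ?_ fun s hs _ => hg s hs
          intro s hs
          obtain ⟨p, hp, rfl⟩ := Finset.mem_image.1 hs
          exact (hf p hp).1
  · rw [Finset.not_nonempty_iff_eq_empty] at hT
    subst hT
    simp only [Finset.sum_empty]
    exact Finset.sum_nonneg hg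

/-- Sum of powers up to `Y`. -/
theorem sum_pow_le (N j : ℕ) (Y : ℝ) (hY : 0 ≤ Y) :
    ∑ V ∈ (Finset.Icc 1 N).filter (fun V : ℕ => (V : ℝ) ≤ Y), (V : ℝ) ^ j ≤ Y ^ (j + 1) := by
  have h1 : ∀ V ∈ (Finset.Icc 1 N).filter (fun V : ℕ => (V : ℝ) ≤ Y), (V : ℝ) ^ j ≤ Y ^ j := by
    intro V hV
    rw [Finset.mem_filter] at hV
    exact pow_le_pow_left₀ (by positivity) hV.2 _
  refine (Finset.sum_le_sum h1).trans ?_
  rw [Finset.sum_const, nsmul_eq_mul, pow_succ, mul_comm]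
  refine mul_le_mul_of_nonneg_left ?_ (by positivity)
  have h2 : (Finset.Icc 1 N).filter (fun V : ℕ => (V : ℝ) ≤ Y) ⊆ Finset.Icc 1 ⌊Y⌋₊ := by
    intro V hV
    rw [Finset.mem_filter, Finset.mem_Icc] at hV
    rw [Finset.mem_Icc]
    exact ⟨hV.1.1, Nat.le_floor hV.2⟩
  have h3 := Finset.card_le_card h2
  rw [Nat.card_Icc] at h3
  have h4 : (((Finset.Icc 1 N).filter (fun V : ℕ => (V : ℝ) ≤ Y)).card : ℝ) ≤ (⌊Y⌋₊ : ℝ) := by
    have : ((Finset.Icc 1 N).filter (fun V : ℕ => (V : ℝ) ≤ Y)).card ≤ ⌊Y⌋₊ := by omega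
    exact_mod_cast this
  exact h4.trans (Nat.floor_le hY)

end Pool.Agent.Y67.HP
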