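import Pool.Agent.Y67.HP.Shell

/-!
# Integer vectors lying in a rank two lattice of small covolume

Job 476 (poster helper716, problem MP_95ac01_nt), from the statement `Z1` of job 473.
-/

namespace Pool.Agent.Y67.HP

open Finset

variable {ι : Type*} [Fintype ι]

theorem sum_two (n M : ℕ) (D : ℝ) (hD : 1 ≤ D) (hM : (M : ℝ) ≤ D) :
    ∑ p ∈ ((Finset.Icc 1 M) ×ˢ (Finset.Icc 1 M)).filter
      (fun p : ℕ × ℕ => (p.1 : ℝ) * p.2 ≤ D), (p.1 : ℝ) ^ n * (p.2 : ℝ) ^ n ≤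
      D ^ (n + 1) * (1 + Real.log D) := by
  classical
  have h0 : ∑ p ∈ ((Finset.Icc 1 M) ×ˢ (Finset.Icc 1 M)).filter
      (fun p : ℕ × ℕ => (p.1 : ℝ) * p.2 ≤ D), (p.1 : ℝ) ^ n * (p.2 : ℝ) ^ n =
      ∑ V ∈ Finset.Icc 1 M, ∑ W ∈ (Finset.Icc 1 M).filter (fun W : ℕ => (W : ℝ) ≤ D / V),
        (V : ℝ) ^ n * (W : ℝ) ^ n := by
    rw [Finset.sum_filter, Finset.sum_product]
    refine Finset.sum_congr rfl fun V hV => ?_
    rw [Finset.mem_Icc] at hV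
    have hV0 : (0 : ℝ) < V := by exact_mod_cast hV.1
    rw [Finset.sum_filter]
    refine Finset.sum_congr rfl fun W _ => ?_
    have : ((V : ℝ) * W ≤ D) ↔ ((W : ℝ) ≤ D / V) := by
      rw [le_div_iff₀ hV0, mul_comm]
    by_cases h : (V : ℝ) * W ≤ D
    · rw [if_pos h, if_pos (this.1 h)]
    · rw [if_neg h, if_neg (fun h' => h (this.2 h'))]
  rw [h0]
  have h1 : ∀ V ∈ Finset.Icc 1 M,
      ∑ W ∈ (Finset.Icc 1 M).filter (fun W : ℕ => (W : ℝ) ≤ D / V),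
        (V : ℝ) ^ n * (W : ℝ) ^ n ≤ D ^ (n + 1) * ((V : ℝ))⁻¹ := by
    intro V hV
    rw [Finset.mem_Icc] at hV
    have hV0 : (0 : ℝ) < V := by exact_mod_cast hV.1
    rw [← Finset.mul_sum]
    have h2 := sum_pow_le M n (D / V) (by positivity)
    refine (mul_le_mul_of_nonneg_left h2 (by positivity)).trans (le_of_eq ?_)
    rw [div_pow, pow_succ (V : ℝ) n]
    field_simp
  refine (Finset.sum_le_sum h1).trans ?_
  rw [← Finset.mul_sum]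
  refine mul_le_mul_of_nonneg_left ?_ (by positivity)
  have h3 : ∑ V ∈ Finset.Icc 1 M, ((V : ℝ))⁻¹ = ((harmonic M : ℚ) : ℝ) := by
    rw [harmonic_eq_sum_Icc]
    push_cast
    rfl
  rw [h3]
  by_cases hM0 : M = 0
  · subst hM0
    simp only [harmonic_zero, Rat.cast_zero]
    have := Real.log_nonneg hD
    linarith
  · have h4 := harmonic_le_one_add_log M
    have h5 : Real.log M ≤ Real.log D :=
      Real.log_le_log (by exact_mod_cast Nat.pos_of_ne_zero hM0) hM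
    linarith

theorem unbal_count_of (hZ : Z1 ι) (hk : 2 ≤ Fintype.card ι) :
    ∃ C : ℝ, 0 < C ∧ ∀ (B Δ : ℝ), 1 ≤ Δ → Δ ≤ B → ∀ U : Finset (ι → ℤ),
      (∀ x ∈ U, (∀ i, |(x i : ℝ)| ≤ B) ∧ ∃ z : ι → ℤ, (∀ i, |(z i : ℝ)| ≤ B) ∧
        (∃ i j, x i * z j - x j * z i ≠ 0) ∧
        ∀ i j, |((x i * z j - x j * z i : ℤ) : ℝ)| ≤ Δ) →
      (U.card : ℝ) ≤ C * B ^ 2 * Δ ^ (Fintype.card ι - 1) * (1 + Real.log Δ) := by
  classical
  set k := Fintype.card ι with hkdef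
  have hk0 : (0 : ℝ) < k := by
    have : 0 < k := by omega
    exact_mod_cast this
  have hk2 : (2 : ℝ) ≤ k := by exact_mod_cast hk
  have h2k1 : (1 : ℝ) ≤ 2 * k := by linarith
  refine ⟨(C0 ι) ^ 2 * (6 * k) ^ 2 * (2 * k) ^ (k - 1) * (1 + Real.log (2 * k)) + 1, ?_, ?_⟩
  · have := Real.log_nonneg h2k1
    have h0 := C0_nonneg (ι := ι)
    positivity
  intro B Δ hΔ hΔB U hU
  have hB : 1 ≤ B := hΔ.trans hΔB
  set X : ℝ := 2 * k * B with hX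
  set D : ℝ := 2 * k * Δ with hD
  have hX1 : 1 ≤ X := by rw [hX]; nlinarith
  have hD1 : 1 ≤ D := by rw [hD]; nlinarith
  set M := ⌊D⌋₊ with hM
  have hMD : (M : ℝ) ≤ D := Nat.floor_le (by linarith)
  have hDX : D ≤ X := by rw [hD, hX]; nlinarith
  let P : Finset (ℕ × ℕ) := ((Finset.Icc 1 M) ×ˢ (Finset.Icc 1 M)).filter
      (fun p : ℕ × ℕ => (p.1 : ℝ) * p.2 ≤ D)
  let t : ℕ × ℕ → Finset ((ι → ℤ) × (ι → ℤ) × ℤ × ℤ) := fun p =>
    shell ι p.1 ×ˢ shell ι p.2 ×ˢ cr X p.1 ×ˢ cr X p.2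
  let S : Finset (Σ _ : ℕ × ℕ, (ι → ℤ) × (ι → ℤ) × ℤ × ℤ) := P.sigma t
  let ψ : (Σ _ : ℕ × ℕ, (ι → ℤ) × (ι → ℤ) × ℤ × ℤ) → (ι → ℤ) :=
    fun s i => s.2.2.2.1 * s.2.1 i + s.2.2.2.2 * s.2.2.1 i
  have hcov := sum_le_of_cover U S ψ (fun _ => 1) (fun _ => 1) (fun _ _ => zero_le_one) (by
    intro x hx
    obtain ⟨hxB, z, hzB, hne, hmin⟩ := hU x hx
    obtain ⟨V, W, v, w, c₁, c₂, c₃, c₄, hV, hW, hv1, hv2, hw1, hw2, hxe, hze, h1, h3, h2, h4, hVB,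
      hWB, hg⟩ := hZ x z hne B hxB hzB
    obtain ⟨i, j, hij⟩ := hg 1 (fun i j => one_dvd _)
    have hVW : (V : ℝ) * W ≤ D := by
      have h5 : |((1 : ℤ) : ℝ)| * V * W = (V : ℝ) * W := by simp
      rw [h5] at hij
      refine hij.trans ?_
      rw [hD]
      exact mul_le_mul_of_nonneg_left (hmin i j) (by positivity)
    have hV1 : (1 : ℝ) ≤ V := by exact_mod_cast hV
    have hW1 : (1 : ℝ) ≤ W := by exact_mod_cast hW
    refine ⟨⟨(V, W), (v, w, c₁, c₂)⟩, ?_, ?_, le_rfl⟩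
    · simp only [S, P, t, Finset.mem_sigma, Finset.mem_filter, Finset.mem_product, Finset.mem_Icc]
      refine ⟨⟨⟨⟨hV, Nat.le_floor ?_⟩, ⟨hW, Nat.le_floor ?_⟩⟩, hVW⟩, mem_shell.2 ⟨hv1, hv2⟩,
        mem_shell.2 ⟨hw1, hw2⟩, mem_cr hV h1, mem_cr hW h2⟩
      · nlinarith
      · nlinarith
    · funext i
      exact (hxe i).symm)
  rw [Finset.sum_const, nsmul_eq_mul, mul_one] at hcov
  refine hcov.trans ?_
  rw [Finset.sum_sigma]
  have hfib : ∀ p ∈ P, ∑ _s ∈ t p, (1 : ℝ) ≤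
      (C0 ι) ^ 2 * (6 * k) ^ 2 * B ^ 2 * ((p.1 : ℝ) ^ (k - 2) * (p.2 : ℝ) ^ (k - 2)) := by
    intro p hp
    rw [Finset.mem_filter, Finset.mem_product, Finset.mem_Icc, Finset.mem_Icc] at hp
    obtain ⟨⟨⟨hp1, hp1M⟩, hp2, hp2M⟩, hpD⟩ := hp
    have hV0 : (0 : ℝ) < p.1 := by exact_mod_cast hp1
    have hW0 : (0 : ℝ) < p.2 := by exact_mod_cast hp2
    have hV1 : (1 : ℝ) ≤ p.1 := by exact_mod_cast hp1
    have hW1 : (1 : ℝ) ≤ p.2 := by exact_mod_cast hp2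
    have hVX : (p.1 : ℝ) ≤ X := by nlinarith
    have hWX : (p.2 : ℝ) ≤ X := by nlinarith
    rw [Finset.sum_const, nsmul_eq_mul, mul_one]
    simp only [t, Finset.card_product, Nat.cast_mul]
    have a1 := card_shell_le (ι := ι) p.1 hp1
    have a2 := card_shell_le (ι := ι) p.2 hp2
    have a3 := card_cr hp1 hVX
    have a4 := card_cr hp2 hWX
    rw [← hkdef] at a1 a2
    have h0 := C0_nonneg (ι := ι)
    have e : (C0 ι) ^ 2 * (6 * k) ^ 2 * B ^ 2 * ((p.1 : ℝ) ^ (k - 2) * (p.2 : ℝ) ^ (k - 2)) =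
        (C0 ι * (p.1 : ℝ) ^ (k - 1)) * ((C0 ι * (p.2 : ℝ) ^ (k - 1)) *
          ((3 * X / p.1) * (3 * X / p.2))) := by
      have e1 : (p.1 : ℝ) ^ (k - 1) = (p.1 : ℝ) ^ (k - 2) * p.1 := by
        rw [← pow_succ]; congr 1; omega
      have e2 : (p.2 : ℝ) ^ (k - 1) = (p.2 : ℝ) ^ (k - 2) * p.2 := by
        rw [← pow_succ]; congr 1; omega
      rw [e1, e2, hX]
      field_simp
      ring
    rw [e]
    refine mul_le_mul a1 ?_ (by positivity) (by positivity)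
    refine mul_le_mul a2 ?_ (by positivity) (by positivity)
    exact mul_le_mul a3 a4 (by positivity) (by positivity)
  refine (Finset.sum_le_sum hfib).trans ?_
  rw [← Finset.mul_sum]
  have hsum := sum_two (k - 2) M D hD1 hMD
  have hk21 : k - 2 + 1 = k - 1 := by omega
  rw [hk21] at hsum
  have hlogD : 1 + Real.log D ≤ (1 + Real.log (2 * k)) * (1 + Real.log Δ) := by
    rw [hD, Real.log_mul (by positivity) (by positivity)]
    have l1 := Real.log_nonneg h2k1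
    have l2 := Real.log_nonneg hΔ
    nlinarith [mul_nonneg l1 l2]
  have hlΔ := Real.log_nonneg hΔ
  have h0 := C0_nonneg (ι := ι)
  have hfin : (C0 ι) ^ 2 * (6 * k) ^ 2 * B ^ 2 * (D ^ (k - 1) * (1 + Real.log D)) ≤
      (C0 ι) ^ 2 * (6 * k) ^ 2 * B ^ 2 * (D ^ (k - 1) *
        ((1 + Real.log (2 * k)) * (1 + Real.log Δ))) := by
    refine mul_le_mul_of_nonneg_left (mul_le_mul_of_nonneg_left hlogD (by positivity))
      (by positivity)
  refine (mul_le_mul_of_nonneg_left hsum (by positivity)).trans (hfin.trans ?_)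
  have e3 : (C0 ι) ^ 2 * (6 * k) ^ 2 * B ^ 2 * (D ^ (k - 1) *
        ((1 + Real.log (2 * k)) * (1 + Real.log Δ))) =
      ((C0 ι) ^ 2 * (6 * k) ^ 2 * (2 * k) ^ (k - 1) * (1 + Real.log (2 * k))) * B ^ 2 *
        Δ ^ (k - 1) * (1 + Real.log Δ) := by
    rw [hD, mul_pow (2 * (k : ℝ)) Δ]
    ring
  rw [e3]
  have h9 : 0 ≤ B ^ 2 * Δ ^ (k - 1) * (1 + Real.log Δ) := by positivity
  nlinarith

end Pool.Agent.Y67.HP
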